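import Pool.Agent.Lib.MP_14e93c_nt.Main

/-!
# Anisotropic Euclidean quadratic forms have class number one

`R` is a Dedekind domain with fraction field `K` such that every nonzero ideal of `R` has finite
index; every Hasse domain is such a ring (as recalled in the problem file).  There is no
restriction on the characteristic and `R` need not be principal.  `a` is the matrix of
coefficients of the quadratic form `q(x) = ∑ a_ij x_i x_j` over `R`.

Proof. Let `L = R^n` and let `M` be a lattice in the genus of `L`. Take `x ∈ M` outside `L`,
choose `y ∈ L` with `|q(x - y)| < 1` and reflect `M` in `v = x - y`: the index `[M : M ∩ L]`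
strictly decreases. Hence some isometry `σ` of the quadratic space maps `M` into `L`. A Euclidean
lattice is a maximal integral lattice, and so is every lattice in its genus; so `σ M = L`.
-/

namespace Pool.Agent.Results.MP_14e93c_nt.ClassNumberOne

open Pool.Agent.Lib.MP_14e93c_nt

/-- Every anisotropic Euclidean quadratic form over a Dedekind domain with finite residue rings
(for instance over a Hasse domain) has class number one. -/
theorem result {R K : Type*} [CommRing R] [IsDedekindDomain R] [Field K] [Algebra R K]
    [IsFractionRing R K] (hfin : ∀ I : Ideal R, I ≠ ⊥ → Finite (R ⧸ I)) {n : ℕ}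
    (a : Matrix (Fin n) (Fin n) R) (hani : IsAnisotropic K a) (heuc : IsEuclidean K a) :
    HasClassNumberOne K a :=
  hasClassNumberOne hfin hani heuc

end Pool.Agent.Results.MP_14e93c_nt.ClassNumberOne
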